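import Mathlib.Analysis.SpecialFunctions.Trigonometric.Basic

/-!
The model of computation: a machine with complex registers and an arbitrary discrete control.

The control state may hold anything that is not a complex register (program counter, the integers
`d`, `R`, `C`, index arithmetic, addresses, tables); control steps are free.  The machine pays one
unit for each arithmetic instruction on complex registers.
-/

namespace Pool.Agent.MP_f91556_lc

/-- Arithmetic instructions on complex registers named by elements of `ρ`. -/
inductive Instr (ρ : Type) : Type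
  | const (dst : ρ) (z : ℂ) : Instr ρ
  | add (dst a b : ρ) : Instr ρ
  | sub (dst a b : ρ) : Instr ρ
  | mul (dst a b : ρ) : Instr ρ
  | div (dst a b : ρ) : Instr ρ
  | conj (dst a : ρ) : Instr ρ

/-- The effect of an instruction on the memory `μ`. -/
noncomputable def Instr.exec {ρ : Type} [DecidableEq ρ] : Instr ρ → (ρ → ℂ) → (ρ → ℂ)
  | .const dst z, μ => Function.update μ dst z
  | .add dst a b, μ => Function.update μ dst (μ a + μ b)
  | .sub dst a b, μ => Function.update μ dst (μ a - μ b)
  | .mul dst a b, μ => Function.update μ dst (μ a * μ b)
  | .div dst a b, μ => Function.update μ dst (μ a / μ b)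
  | .conj dst a, μ => Function.update μ dst (starRingEnd ℂ (μ a))

/-- What the machine does in a control state: halt and name the registers that hold the outputs,
execute one arithmetic instruction, or read an arbitrary natural number off the memory
(a test, a comparison, a rounding, ...) and branch on it. -/
inductive Control (σ ρ κ : Type) : Type
  | halt (out : κ → ρ) : Control σ ρ κ
  | op (i : Instr ρ) (next : σ) : Control σ ρ κ
  | read (f : (ρ → ℂ) → ℕ) (next : ℕ → σ) : Control σ ρ κ

/-- `Runs act s μ y n`: started in control state `s` with memory `μ`, the machine with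
program `act` halts with output `y` after exactly `n` arithmetic instructions. -/
inductive Runs {σ ρ κ : Type} [DecidableEq ρ] (act : σ → Control σ ρ κ) :
    σ → (ρ → ℂ) → (κ → ℂ) → ℕ → Prop
  | halt {s : σ} {μ : ρ → ℂ} {out : κ → ρ} :
      act s = .halt out → Runs act s μ (fun k => μ (out k)) 0
  | op {s : σ} {μ : ρ → ℂ} {i : Instr ρ} {next : σ} {y : κ → ℂ} {n : ℕ} :
      act s = .op i next → Runs act next (i.exec μ) y n → Runs act s μ y (n + 1)
  | read {s : σ} {μ : ρ → ℂ} {f : (ρ → ℂ) → ℕ} {next : ℕ → σ} {y : κ → ℂ} {n : ℕ} :
      act s = .read f next → Runs act (next (f μ)) μ y n → Runs act s μ y n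

/-- The product `F_{RC} v`, with `F_{jk} = ω ^ (j k) / √d` and `ω = exp (-2 π i / d)`. -/
noncomputable def fourierMul (d : ℕ) (R C : Finset (ZMod d)) (v : C → ℂ) : R → ℂ :=
  fun r => (1 / (Real.sqrt d : ℂ)) * ∑ c : C, v c *
    Complex.exp (-2 * Real.pi * Complex.I / d) ^ ((r : ZMod d).val * (c : ZMod d).val)

end Pool.Agent.MP_f91556_lc
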