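import Mathlib.Topology.Sheaves.Presheaf
import Mathlib.Tactic.Monotonicity.Lemmas
import Mathlib.Data.Int.Star
import Mathlib.Algebra.Order.Ring.Star
import Mathlib.RingTheory.PicardGroup
import Mathlib.Topology.GDelta.MetrizableSpace
import Mathlib.Analysis.InnerProductSpace.Basic
import Mathlib.Topology.Baire.CompleteMetrizable
import Mathlib.Analysis.Calculus.Deriv.Inv
import Mathlib.Analysis.CStarAlgebra.Classes
import Mathlib.Combinatorics.SimpleGraph.Basic
import Mathlib.RingTheory.RootsOfUnity.Complex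
import Mathlib.Combinatorics.Nullstellensatz
import Mathlib.RingTheory.PiTensorProduct
import Mathlib.Topology.Separation.CompletelyRegular
import Mathlib.RingTheory.SimpleRing.Principal
import Mathlib.Order.CompletePartialOrder
import Mathlib.Tactic.Polynomial.Basic
import Pool.Agent.MP_f91556_lc.Defs

-- ======== part 0: formerly Pool.Agent.MP_f91556_lc.Count
section MrgPart0

/-!
Counting part: the families of vectors that a linear circuit with `N` gates can produce satisfy
a common nontrivial polynomial equation of small degree.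
-/

namespace Pool.Agent.MP_f91556_lc

open MvPolynomial

/-- Sets of vectors obtained from `B` by `N` times adjoining a combination of two vectors. -/
inductive Reach {J : Type} (B : Set (J → ℂ)) : ℕ → Set (J → ℂ) → Prop
  | base : Reach B 0 B
  | step {N : ℕ} {S : Set (J → ℂ)} (α β : ℂ) {u u' : J → ℂ} :
      Reach B N S → u ∈ S → u' ∈ S → Reach B (N + 1) (insert (α • u + β • u') S)

theorem Reach.subset {J : Type} {B : Set (J → ℂ)} {N : ℕ} {S : Set (J → ℂ)}
    (h : Reach B N S) : B ⊆ S := by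
  induction h with
  | base => exact subset_rfl
  | step α β _ _ _ ih => exact ih.trans (Set.subset_insert _ _)

theorem Reach.mono {J : Type} {B : Set (J → ℂ)} (h0 : (0 : J → ℂ) ∈ B) {N N' : ℕ}
    {S : Set (J → ℂ)} (h : Reach B N S) (hN : N ≤ N') : ∃ S', Reach B N' S' ∧ S ⊆ S' := by
  induction N', hN using Nat.le_induction with
  | base => exact ⟨S, h, subset_rfl⟩
  | succ n _ ih =>
    obtain ⟨S', h1, h2⟩ := ih
    exact ⟨_, Reach.step 0 0 h1 (h1.subset h0) (h1.subset h0),
      h2.trans (Set.subset_insert _ _)⟩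

theorem exists_family {J : Type} (B : Finset (J → ℂ)) (n : ℕ) (N : ℕ) (hN : 2 * N ≤ n) :
    ∃ F : Finset (Finset (J → MvPolynomial (Fin n) ℂ)),
      F.card ≤ (B.card + N) ^ (2 * N) ∧
      (∀ T ∈ F, T.card ≤ B.card + N ∧ ∀ p ∈ T, ∀ j, (p j).totalDegree ≤ N) ∧
      ∀ S, Reach (B : Set (J → ℂ)) N S → ∃ T ∈ F, ∃ x : ℕ → ℂ, ∀ u ∈ S, ∃ p ∈ T,
        ∀ x' : Fin n → ℂ, (∀ i : Fin n, i.val < 2 * N → x' i = x i) →
          ∀ j, eval x' (p j) = u j := by
  classical
  induction N with
  | zero =>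
    refine ⟨{B.image fun u j => C (u j)}, by simp, ?_, ?_⟩
    · intro T hT
      rw [Finset.mem_singleton] at hT
      subst hT
      refine ⟨by simpa using Finset.card_image_le, ?_⟩
      intro p hp j
      obtain ⟨u, -, rfl⟩ := Finset.mem_image.1 hp
      simp
    · intro S hS
      cases hS
      refine ⟨_, Finset.mem_singleton_self _, 0, ?_⟩
      intro u hu
      refine ⟨fun j => C (u j), Finset.mem_image.2 ⟨u, hu, rfl⟩, ?_⟩
      intro x' _ j
      simp
  | succ N ih =>
    obtain ⟨F, hF1, hF2, hF3⟩ := ih (by omega)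
    let i₀ : Fin n := ⟨2 * N, by omega⟩
    let i₁ : Fin n := ⟨2 * N + 1, by omega⟩
    let g : (J → MvPolynomial (Fin n) ℂ) × (J → MvPolynomial (Fin n) ℂ) →
        (J → MvPolynomial (Fin n) ℂ) := fun pp j => X i₀ * pp.1 j + X i₁ * pp.2 j
    refine ⟨F.biUnion fun T => (T ×ˢ T).image fun pp => insert (g pp) T, ?_, ?_, ?_⟩
    · calc (F.biUnion fun T => (T ×ˢ T).image fun pp => insert (g pp) T).card
          ≤ ∑ T ∈ F, ((T ×ˢ T).image fun pp => insert (g pp) T).card := Finset.card_biUnion_le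
        _ ≤ ∑ _T ∈ F, (B.card + N) ^ 2 := by
          refine Finset.sum_le_sum fun T hT => ?_
          refine Finset.card_image_le.trans ?_
          rw [Finset.card_product, sq]
          exact Nat.mul_le_mul (hF2 T hT).1 (hF2 T hT).1
        _ = F.card * (B.card + N) ^ 2 := by simp
        _ ≤ (B.card + N) ^ (2 * N) * (B.card + N) ^ 2 := Nat.mul_le_mul_right _ hF1
        _ = (B.card + N) ^ (2 * (N + 1)) := by rw [← pow_add]; ring_nf
        _ ≤ (B.card + (N + 1)) ^ (2 * (N + 1)) := Nat.pow_le_pow_left (by omega) _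
    · intro T' hT'
      obtain ⟨T, hT, hT'⟩ := Finset.mem_biUnion.1 hT'
      obtain ⟨pp, hpp, rfl⟩ := Finset.mem_image.1 hT'
      obtain ⟨hp1, hp2⟩ := Finset.mem_product.1 hpp
      refine ⟨(Finset.card_insert_le _ _).trans (by have := (hF2 T hT).1; omega), ?_⟩
      intro p hp j
      rcases Finset.mem_insert.1 hp with rfl | hp
      · refine (totalDegree_add _ _).trans (max_le ?_ ?_)
        · refine (totalDegree_mul _ _).trans ?_
          have := (hF2 T hT).2 _ hp1 j
          rw [totalDegree_X]; omega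
        · refine (totalDegree_mul _ _).trans ?_
          have := (hF2 T hT).2 _ hp2 j
          rw [totalDegree_X]; omega
      · exact ((hF2 T hT).2 _ hp j).trans (Nat.le_succ _)
    · intro S hS
      cases hS with
      | @step _ S α β u u' hS hu hu' =>
        obtain ⟨T, hT, x, hx⟩ := hF3 S hS
        obtain ⟨p, hp, hpx⟩ := hx u hu
        obtain ⟨p', hp', hpx'⟩ := hx u' hu'
        let y : ℕ → ℂ := fun i => if i = 2 * N then α else if i = 2 * N + 1 then β else x i
        have hy : ∀ x' : Fin n → ℂ, (∀ i : Fin n, i.val < 2 * (N + 1) → x' i = y i) →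
            ∀ i : Fin n, i.val < 2 * N → x' i = x i := by
          intro x' h i hi
          rw [h i (by omega)]
          simp only [y]
          rw [if_neg (by omega), if_neg (by omega)]
        refine ⟨insert (g (p, p')) T, Finset.mem_biUnion.2 ⟨T, hT, Finset.mem_image.2
          ⟨(p, p'), Finset.mem_product.2 ⟨hp, hp'⟩, rfl⟩⟩, y, ?_⟩
        intro w hw
        rcases hw with rfl | hw
        · refine ⟨g (p, p'), Finset.mem_insert_self _ _, ?_⟩
          intro x' hx' j
          have h0 : x' i₀ = α := by rw [hx' i₀ (by simp [i₀])]; simp [y, i₀]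
          have h1 : x' i₁ = β := by rw [hx' i₁ (by simp [i₁]; omega)]; simp [y, i₁]
          simp [g, h0, h1, hpx x' (hy x' hx') j, hpx' x' (hy x' hx') j]
        · obtain ⟨q, hq, hqx⟩ := hx w hw
          exact ⟨q, Finset.mem_insert_of_mem hq, fun x' hx' => hqx x' (hy x' hx')⟩

theorem exists_equation {J K : Type} [Fintype J] [Fintype K] [DecidableEq J] [DecidableEq K]
    (B : Finset (J → ℂ)) (N D : ℕ)
    (hcount : (B.card + N) ^ (2 * N) * (B.card + N) ^ (Fintype.card K) *
      (Fintype.card K * Fintype.card J * D * N + 1) ^ (2 * N) <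
        D ^ (Fintype.card K * Fintype.card J)) :
    ∃ q : (K × J → Fin D) → ℂ, q ≠ 0 ∧ ∀ S, Reach (B : Set (J → ℂ)) N S →
      ∀ Y : K → J → ℂ, (∀ k, Y k ∈ S) →
        ∑ e : K × J → Fin D, q e * ∏ kj : K × J, Y kj.1 kj.2 ^ (e kj).val = 0 := by
  classical
  obtain ⟨F, hF1, hF2, hF3⟩ := exists_family B (2 * N) N le_rfl
  set Δ := Fintype.card K * Fintype.card J * D * N with hΔ
  let G : Finset ℂ := (Finset.range (Δ + 1)).image fun i : ℕ => (i : ℂ)
  have hG : G.card = Δ + 1 := by
    rw [Finset.card_image_of_injective _ Nat.cast_injective, Finset.card_range]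
  let W : Finset (K → J → MvPolynomial (Fin (2 * N)) ℂ) :=
    F.biUnion fun T => Fintype.piFinset fun _ : K => T
  let Gr : Finset (Fin (2 * N) → ℂ) := Fintype.piFinset fun _ => G
  have hW : W.card ≤ (B.card + N) ^ (2 * N) * (B.card + N) ^ (Fintype.card K) := by
    calc W.card ≤ ∑ T ∈ F, (Fintype.piFinset fun _ : K => T).card := Finset.card_biUnion_le
      _ ≤ ∑ _T ∈ F, (B.card + N) ^ (Fintype.card K) := by
        refine Finset.sum_le_sum fun T hT => ?_
        rw [Fintype.card_piFinset, Finset.prod_const, Finset.card_univ]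
        exact Nat.pow_le_pow_left (hF2 T hT).1 _
      _ = F.card * (B.card + N) ^ (Fintype.card K) := by simp
      _ ≤ _ := Nat.mul_le_mul_right _ hF1
  have hGr : Gr.card = (Δ + 1) ^ (2 * N) := by
    simp [Gr, Fintype.card_piFinset, hG]
  let Cond := W ×ˢ Gr
  let Φ : ((K × J → Fin D) → ℂ) →ₗ[ℂ] (Cond → ℂ) :=
    { toFun := fun q c => ∑ e : K × J → Fin D,
        q e * ∏ kj : K × J, eval c.1.2 (c.1.1 kj.1 kj.2) ^ (e kj).val
      map_add' := by
        intro q q'
        funext c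
        simp [add_mul, Finset.sum_add_distrib]
      map_smul' := by
        intro a q
        funext c
        simp [Finset.mul_sum, mul_assoc] }
  have hlt : Module.finrank ℂ (Cond → ℂ) < Module.finrank ℂ ((K × J → Fin D) → ℂ) := by
    rw [Module.finrank_fintype_fun_eq_card, Module.finrank_fintype_fun_eq_card]
    simp only [Fintype.card_coe, Fintype.card_fun, Fintype.card_fin, Fintype.card_prod]
    refine lt_of_le_of_lt ?_ hcount
    rw [Finset.card_product, hGr]
    exact Nat.mul_le_mul_right _ hW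
  obtain ⟨q, hq, hq0⟩ := Submodule.exists_mem_ne_zero_of_ne_bot (Φ.ker_ne_bot_of_finrank_lt hlt)
  refine ⟨q, hq0, ?_⟩
  intro S hS Y hY
  obtain ⟨T, hT, x, hx⟩ := hF3 S hS
  choose p hp hpx using fun k => hx (Y k) (hY k)
  have hpW : p ∈ W := Finset.mem_biUnion.2 ⟨T, hT, Fintype.mem_piFinset.2 hp⟩
  let P : MvPolynomial (Fin (2 * N)) ℂ :=
    ∑ e : K × J → Fin D, C (q e) * ∏ kj : K × J, p kj.1 kj.2 ^ (e kj).val
  have hevalP : ∀ z : Fin (2 * N) → ℂ, eval z P =
      ∑ e : K × J → Fin D, q e * ∏ kj : K × J, eval z (p kj.1 kj.2) ^ (e kj).val := by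
    intro z
    simp [P]
  have hdeg : P.totalDegree ≤ Δ := by
    refine totalDegree_finsetSum_le fun e _ => ?_
    refine (totalDegree_mul _ _).trans ?_
    rw [totalDegree_C, zero_add]
    refine (totalDegree_finsetProd _ _).trans ?_
    calc ∑ kj : K × J, (p kj.1 kj.2 ^ (e kj).val).totalDegree
        ≤ ∑ _kj : K × J, D * N := by
          refine Finset.sum_le_sum fun kj _ => ?_
          refine (totalDegree_pow _ _).trans ?_
          exact Nat.mul_le_mul (e kj).2.le ((hF2 T hT).2 _ (hp kj.1) kj.2)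
      _ = Δ := by simp [hΔ, mul_assoc]
  have hP0 : P = 0 := by
    refine eq_zero_of_eval_zero_at_prod_finset P (fun _ => G) ?_ ?_
    · intro i
      rw [hG]
      exact Nat.lt_succ_of_le ((degreeOf_le_totalDegree _ _).trans hdeg)
    · intro z hz
      rw [hevalP]
      have hzG : z ∈ Gr := Fintype.mem_piFinset.2 hz
      have := congrFun (LinearMap.mem_ker.1 hq) ⟨(p, z), Finset.mem_product.2 ⟨hpW, hzG⟩⟩
      simpa [Φ] using this
  have := hevalP fun i => x i
  rw [hP0, map_zero] at this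
  rw [this]
  refine Finset.sum_congr rfl fun e _ => ?_
  congr 1
  refine Finset.prod_congr rfl fun kj _ => ?_
  rw [hpx kj.1 (fun i => x i) (fun _ _ => rfl) kj.2]

end Pool.Agent.MP_f91556_lc

end MrgPart0

-- ======== part 1: formerly Pool.Agent.MP_f91556_lc.Analysis
section MrgPart1

/-!
Linearisation: a machine computing a linear map with at most `s` arithmetic instructions on every
input yields a linear circuit with `2 s` gates for the matrix.
-/

namespace Pool.Agent.MP_f91556_lc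

open Filter Topology Complex

/-- Execute a list of instructions. -/
noncomputable def execL {ρ : Type} [DecidableEq ρ] : List (Instr ρ) → (ρ → ℂ) → (ρ → ℂ)
  | [], μ => μ
  | i :: L, μ => execL L (i.exec μ)

/-- The straight-line program followed along a given sequence of branch outcomes. -/
def trace {σ ρ κ : Type} (act : σ → Control σ ρ κ) :
    List ℕ → σ → Option (List (Instr ρ) × (κ → ρ))
  | [], s => match act s with
    | .halt out => some ([], out)
    | _ => none
  | a :: π, s => match act s with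
    | .halt _ => none
    | .op i next => (trace act π next).map fun p => (i :: p.1, p.2)
    | .read _ next => trace act π (next a)

theorem Runs.exists_trace {σ ρ κ : Type} [DecidableEq ρ] {act : σ → Control σ ρ κ}
    {s : σ} {μ : ρ → ℂ} {y : κ → ℂ} {n : ℕ} (h : Runs act s μ y n) :
    ∃ π L out, trace act π s = some (L, out) ∧ L.length = n ∧ ∀ k, y k = execL L μ (out k) := by
  induction h with
  | @halt s μ out h => exact ⟨[], [], out, by simp [trace, h], rfl, fun _ => rfl⟩
  | @op s μ i next y n h _ ih =>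
    obtain ⟨π, L, out, h1, h2, h3⟩ := ih
    exact ⟨0 :: π, i :: L, out, by simp [trace, h, h1], by simp [h2], h3⟩
  | @read s μ f next y n h _ ih =>
    obtain ⟨π, L, out, h1, h2, h3⟩ := ih
    exact ⟨f μ :: π, L, out, by simp [trace, h, h1], h2, h3⟩

section

variable {E : Type} [NormedAddCommGroup E] [NormedSpace ℝ E] {J : Type}

/-- Holomorphic part of a real-linear form along the directions `δ j`, `δ' j`. -/
noncomputable def wp (δ δ' : J → E) (D : E →L[ℝ] ℂ) : J → ℂ :=
  fun j => (D (δ j) - I * D (δ' j)) / 2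

/-- Holomorphic part of the conjugate form. -/
noncomputable def wm (δ δ' : J → E) (D : E →L[ℝ] ℂ) : J → ℂ :=
  fun j => (starRingEnd ℂ (D (δ j)) - I * starRingEnd ℂ (D (δ' j))) / 2

/-- On a dense open set all registers are differentiable with controlled derivative. -/
def Good (δ δ' : J → E) (B : Set (J → ℂ)) {ρ : Type} (g : E → ρ → ℂ) (N : ℕ) : Prop :=
  ∃ U : Set E, IsOpen U ∧ Dense U ∧ ∀ v ∈ U, ∃ S, Reach B N S ∧ ∀ r, ∃ D : E →L[ℝ] ℂ,
    HasFDerivAt (fun w => g w r) D v ∧ wp δ δ' D ∈ S ∧ wm δ δ' D ∈ S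

theorem good_update {δ δ' : J → E} {B : Set (J → ℂ)} {ρ : Type} [DecidableEq ρ]
    {g : E → ρ → ℂ} {N : ℕ} (dst : ρ) (h : E → ℂ) (U : Set E) (hU : IsOpen U) (hU' : Dense U)
    (H : ∀ v ∈ U, ∃ S, Reach B N S ∧ (∀ r, ∃ D : E →L[ℝ] ℂ,
      HasFDerivAt (fun w => g w r) D v ∧ wp δ δ' D ∈ S ∧ wm δ δ' D ∈ S) ∧
      ∃ D : E →L[ℝ] ℂ, HasFDerivAt h D v ∧ ∃ α β α' β' : ℂ, ∃ u₁ ∈ S, ∃ u₂ ∈ S, ∃ u₃ ∈ S,
        ∃ u₄ ∈ S, wp δ δ' D = α • u₁ + β • u₂ ∧ wm δ δ' D = α' • u₃ + β' • u₄) :
    Good δ δ' B (fun w => Function.update (g w) dst (h w)) (N + 2) := by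
  refine ⟨U, hU, hU', fun v hv => ?_⟩
  obtain ⟨S, hS, h1, D, hD, α, β, α', β', u₁, hu₁, u₂, hu₂, u₃, hu₃, u₄, hu₄, e1, e2⟩ := H v hv
  refine ⟨_, Reach.step α' β' (Reach.step α β hS hu₁ hu₂) (Set.mem_insert_of_mem _ hu₃)
    (Set.mem_insert_of_mem _ hu₄), fun r => ?_⟩
  by_cases hr : r = dst
  · subst hr
    refine ⟨D, by simpa using hD, ?_, ?_⟩
    · rw [e1]; exact Set.mem_insert_of_mem _ (Set.mem_insert _ _)
    · rw [e2]; exact Set.mem_insert _ _
  · obtain ⟨D', hD', m1, m2⟩ := h1 r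
    refine ⟨D', by simpa [Function.update_of_ne hr] using hD', ?_, ?_⟩
    · exact Set.mem_insert_of_mem _ (Set.mem_insert_of_mem _ m1)
    · exact Set.mem_insert_of_mem _ (Set.mem_insert_of_mem _ m2)

theorem wp_comb (δ δ' : J → E) (α β : ℂ) (D₁ D₂ : E →L[ℝ] ℂ) :
    wp δ δ' (α • D₁ + β • D₂) = α • wp δ δ' D₁ + β • wp δ δ' D₂ := by
  funext j
  simp [wp]
  ring

theorem wm_comb (δ δ' : J → E) (α β : ℂ) (D₁ D₂ : E →L[ℝ] ℂ) :
    wm δ δ' (α • D₁ + β • D₂) =
      starRingEnd ℂ α • wm δ δ' D₁ + starRingEnd ℂ β • wm δ δ' D₂ := by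
  funext j
  simp [wm]
  ring

theorem good_binop {δ δ' : J → E} {B : Set (J → ℂ)} {ρ : Type} [DecidableEq ρ]
    {g : E → ρ → ℂ} {N : ℕ} (dst a b : ρ) (h : E → ℂ) (U : Set E) (hU : IsOpen U)
    (hU' : Dense U)
    (H : ∀ v ∈ U, ∃ S, Reach B N S ∧ ∀ r, ∃ D : E →L[ℝ] ℂ,
      HasFDerivAt (fun w => g w r) D v ∧ wp δ δ' D ∈ S ∧ wm δ δ' D ∈ S)
    (H' : ∀ v ∈ U, ∀ D₁ D₂ : E →L[ℝ] ℂ, HasFDerivAt (fun w => g w a) D₁ v →
      HasFDerivAt (fun w => g w b) D₂ v → ∃ α β : ℂ, HasFDerivAt h (α • D₁ + β • D₂) v) :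
    Good δ δ' B (fun w => Function.update (g w) dst (h w)) (N + 2) := by
  refine good_update dst h U hU hU' fun v hv => ?_
  obtain ⟨S, hS, h1⟩ := H v hv
  obtain ⟨D₁, hD₁, p₁, m₁⟩ := h1 a
  obtain ⟨D₂, hD₂, p₂, m₂⟩ := h1 b
  obtain ⟨α, β, hD⟩ := H' v hv D₁ D₂ hD₁ hD₂
  exact ⟨S, hS, h1, _, hD, α, β, _, _, _, p₁, _, p₂, _, m₁, _, m₂, wp_comb _ _ _ _ _ _,
    wm_comb _ _ _ _ _ _⟩

omit [NormedSpace ℝ E] in
theorem dense_split {U : Set E} (hU : IsOpen U) (hU' : Dense U) {f : E → ℂ}
    (hf : ContinuousOn f U) :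
    IsOpen ((U ∩ f ⁻¹' {0}ᶜ) ∪ interior (U ∩ f ⁻¹' {0})) ∧
      Dense ((U ∩ f ⁻¹' {0}ᶜ) ∪ interior (U ∩ f ⁻¹' {0})) := by
  refine ⟨(hf.isOpen_inter_preimage hU isOpen_compl_singleton).union isOpen_interior, ?_⟩
  rw [dense_iff_inter_open]
  intro W hW hWne
  by_cases hc : (W ∩ (U ∩ f ⁻¹' {0}ᶜ)).Nonempty
  · exact hc.mono (Set.inter_subset_inter_right _ Set.subset_union_left)
  · obtain ⟨x, hxW, hxU⟩ := hU'.inter_open_nonempty W hW hWne
    refine ⟨x, hxW, Or.inr ?_⟩
    refine mem_interior.2 ⟨W ∩ U, ?_, hW.inter hU, hxW, hxU⟩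
    intro y hy
    refine ⟨hy.2, ?_⟩
    by_contra hne
    exact hc ⟨y, hy.1, hy.2, hne⟩

theorem Good.exec {δ δ' : J → E} {B : Set (J → ℂ)} {ρ : Type} [DecidableEq ρ]
    {g : E → ρ → ℂ} {N : ℕ} (hg : Good δ δ' B g N) (i : Instr ρ) :
    Good δ δ' B (fun w => i.exec (g w)) (N + 2) := by
  obtain ⟨U, hU, hU', H⟩ := hg
  cases i with
  | const dst z =>
    refine good_binop dst dst dst (fun _ => z) U hU hU' H fun v _ D₁ D₂ _ _ => ⟨0, 0, ?_⟩
    have e : (0 : ℂ) • D₁ + (0 : ℂ) • D₂ = 0 := by ext; simp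
    rw [e]
    exact hasFDerivAt_const z v
  | add dst a b =>
    refine good_binop dst a b (fun w => g w a + g w b) U hU hU' H
      fun v _ D₁ D₂ h1 h2 => ⟨1, 1, ?_⟩
    have e : (1 : ℂ) • D₁ + (1 : ℂ) • D₂ = D₁ + D₂ := by ext; simp
    rw [e]
    exact h1.add h2
  | sub dst a b =>
    refine good_binop dst a b (fun w => g w a - g w b) U hU hU' H
      fun v _ D₁ D₂ h1 h2 => ⟨1, -1, ?_⟩
    have e : (1 : ℂ) • D₁ + (-1 : ℂ) • D₂ = D₁ - D₂ := by ext; simp [sub_eq_add_neg]
    rw [e]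
    exact h1.sub h2
  | mul dst a b =>
    refine good_binop dst a b (fun w => g w a * g w b) U hU hU' H
      fun v _ D₁ D₂ h1 h2 => ⟨g v b, g v a, ?_⟩
    have := h1.mul h2
    rw [add_comm] at this
    exact this
  | div dst a b =>
    have hc : ContinuousOn (fun w => g w b) U := by
      intro v hv
      obtain ⟨S, -, h1⟩ := H v hv
      obtain ⟨D, hD, -⟩ := h1 b
      exact hD.continuousAt.continuousWithinAt
    obtain ⟨o1, o2⟩ := dense_split hU hU' hc
    refine good_binop dst a b (fun w => g w a / g w b) _ o1 o2 ?_ ?_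
    · intro v hv
      rcases hv with hv | hv
      · exact H v hv.1
      · exact H v (interior_subset hv).1
    · intro v hv D₁ D₂ h1 h2
      rcases hv with hv | hv
      · have hne : g v b ≠ 0 := hv.2
        have h3 := (hasDerivAt_inv hne).comp_hasFDerivAt v h2
        have h4 := h1.mul h3
        refine ⟨(g v b)⁻¹, g v a * -(g v b ^ 2)⁻¹, ?_⟩
        rw [add_comm, mul_smul]
        simp only [div_eq_mul_inv]
        exact h4
      · refine ⟨0, 0, ?_⟩
        have : (fun w => g w a / g w b) =ᶠ[𝓝 v] fun _ => 0 := by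
          filter_upwards [mem_interior_iff_mem_nhds.1 hv] with w hw
          have : g w b = 0 := hw.2
          simp [this]
        have e : (0 : ℂ) • D₁ + (0 : ℂ) • D₂ = 0 := by ext; simp
        rw [e]
        exact (hasFDerivAt_const (0 : ℂ) v).congr_of_eventuallyEq this
  | conj dst a =>
    refine good_update dst (fun w => starRingEnd ℂ (g w a)) U hU hU' fun v hv => ?_
    obtain ⟨S, hS, h1⟩ := H v hv
    obtain ⟨D₁, hD₁, p₁, m₁⟩ := h1 a
    refine ⟨S, hS, h1, (conjCLE : ℂ →L[ℝ] ℂ).comp D₁, ?_, 1, 0, 1, 0, _, m₁, _, m₁, _, p₁, _, p₁,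
      ?_, ?_⟩
    · exact (conjCLE : ℂ →L[ℝ] ℂ).hasFDerivAt.comp v hD₁
    · funext j; simp [wp, wm]
    · funext j; simp [wp, wm]

theorem Good.execL {δ δ' : J → E} {B : Set (J → ℂ)} {ρ : Type} [DecidableEq ρ]
    (L : List (Instr ρ)) : ∀ {g : E → ρ → ℂ} {N : ℕ}, Good δ δ' B g N →
      Good δ δ' B (fun w => MP_f91556_lc.execL L (g w)) (N + 2 * L.length) := by
  induction L with
  | nil => intro g N hg; exact hg
  | cons i L ih =>
    intro g N hg
    have := ih (hg.exec i)
    have e : N + 2 + 2 * L.length = N + 2 * (i :: L).length := by simp; ring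
    rw [e] at this
    exact this

theorem reach_of_machine [CompleteSpace E] {δ δ' : J → E} {B : Set (J → ℂ)}
    (h0 : (0 : J → ℂ) ∈ B) {σ ρ κ : Type} [DecidableEq ρ] [Finite κ] (act : σ → Control σ ρ κ)
    (s₀ : σ) (init : E → ρ → ℂ) (hinit : Good δ δ' B init 0) (M : κ → E →L[ℝ] ℂ) (s : ℕ)
    (H : ∀ v, ∃ n ≤ s, Runs act s₀ (init v) (fun k => M k v) n) :
    ∃ S, Reach B (2 * s) S ∧ ∀ k, wp δ δ' (M k) ∈ S := by
  classical
  let A : List ℕ → Set E := fun π => {v | ∃ L out, trace act π s₀ = some (L, out) ∧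
    L.length ≤ s ∧ ∀ k, M k v = execL L (init v) (out k)}
  have hcover : ⋃ π, closure (A π) = Set.univ := by
    refine Set.eq_univ_of_forall fun v => ?_
    obtain ⟨n, hn, hr⟩ := H v
    obtain ⟨π, L, out, h1, h2, h3⟩ := hr.exists_trace
    exact Set.mem_iUnion.2 ⟨π, subset_closure ⟨L, out, h1, h2 ▸ hn, h3⟩⟩
  obtain ⟨π, hπ⟩ := nonempty_interior_of_iUnion_of_closed (fun π => isClosed_closure) hcover
  obtain ⟨v₁, hv₁⟩ := hπ
  have hAne : (A π).Nonempty := closure_nonempty_iff.1 ⟨v₁, interior_subset hv₁⟩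
  obtain ⟨-, L, out, htr, hL, -⟩ := hAne
  have hA : ∀ v ∈ A π, ∀ k, M k v = execL L (init v) (out k) := by
    rintro v ⟨L', out', h1, -, h3⟩
    rw [htr] at h1
    obtain ⟨rfl, rfl⟩ := Prod.mk.inj (Option.some.inj h1)
    exact h3
  obtain ⟨U, hU, hU', HU⟩ := hinit.execL L
  obtain ⟨v₀, hv₀, hv₀U⟩ := hU'.inter_open_nonempty _ isOpen_interior ⟨v₁, hv₁⟩
  have hcl : ∀ v ∈ U, v ∈ closure (A π) → ∀ k, M k v = execL L (init v) (out k) := by
    intro v hvU hv k
    obtain ⟨S, -, h1⟩ := HU v hvU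
    obtain ⟨D, hD, -⟩ := h1 (out k)
    have c1 : ContinuousAt (fun w => M k w - execL L (init w) (out k)) v :=
      (M k).continuous.continuousAt.sub hD.continuousAt
    have c2 : M k v - execL L (init v) (out k) ∈ closure ({0} : Set ℂ) := by
      refine c1.continuousWithinAt.mem_closure hv ?_
      intro w hw
      simp [hA w hw k]
    rw [closure_singleton] at c2
    exact sub_eq_zero.1 c2
  obtain ⟨S, hS, h1⟩ := HU v₀ hv₀U
  obtain ⟨S', hS', hsub⟩ := hS.mono h0 (show 0 + 2 * L.length ≤ 2 * s by omega)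
  refine ⟨S', hS', fun k => hsub ?_⟩
  obtain ⟨D, hD, p, -⟩ := h1 (out k)
  have hev : (fun w => M k w) =ᶠ[𝓝 v₀] fun w => execL L (init w) (out k) := by
    filter_upwards [hU.mem_nhds hv₀U, mem_interior_iff_mem_nhds.1 hv₀] with w h1 h2
    exact hcl w h1 h2 k
  have : M k = D := (M k).hasFDerivAt.unique (hD.congr_of_eventuallyEq hev)
  rw [this]
  exact p

end

end Pool.Agent.MP_f91556_lc

end MrgPart1

-- ======== part 2: formerly Pool.Agent.MP_f91556_lc.Kron
section MrgPart2

/-!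
Kronecker substitution: a nontrivial equation of individual degree `< D` fails at some matrix
`(ζ ^ (D ^ r * c j))`, with the `c j` in prescribed disjoint blocks of exponents.
-/

namespace Pool.Agent.MP_f91556_lc

open MvPolynomial

theorem exists_nonvanishing {m k D d : ℕ} (ζ : ℂ) (hζ : IsPrimitiveRoot ζ d)
    (hd : m * D ^ k ≤ d) (hD : 0 < D) (q : (Fin k × Fin m → Fin D) → ℂ) (hq : q ≠ 0) :
    ∃ c : Fin m → ℕ, (∀ j, c j < d) ∧ Function.Injective c ∧
      ∑ e : Fin k × Fin m → Fin D, q e *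
        ∏ kj : Fin k × Fin m, (ζ ^ (D ^ kj.1.val * c kj.2)) ^ (e kj).val ≠ 0 := by
  classical
  let E : (Fin k × Fin m → Fin D) → Fin m →₀ ℕ := fun e =>
    Finsupp.equivFunOnFinite.symm fun j => (finFunctionFinEquiv fun r => e (r, j)).val
  have hEinj : Function.Injective E := by
    intro e e' h
    have h1 := Finsupp.equivFunOnFinite.symm.injective h
    funext ⟨r, j⟩
    have h2 := finFunctionFinEquiv.injective (Fin.ext (congrFun h1 j))
    exact congrFun h2 r
  have hElt : ∀ e j, E e j < D ^ k := fun e j => (finFunctionFinEquiv fun r => e (r, j)).2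
  have hEval : ∀ e j, E e j = ∑ r : Fin k, (e (r, j)).val * D ^ r.val := by
    intro e j
    simp [E]
  let P : MvPolynomial (Fin m) ℂ := ∑ e, monomial (E e) (q e)
  have hP : P ≠ 0 := by
    obtain ⟨e₀, he₀⟩ := Function.ne_iff.1 hq
    intro h
    have : coeff (E e₀) P = q e₀ := by
      simp only [P, coeff_sum, coeff_monomial]
      rw [Finset.sum_eq_single e₀]
      · simp
      · intro e _ he
        rw [if_neg (hEinj.ne he)]
      · simp
    rw [h] at this
    exact he₀ (by simpa using this.symm)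
  have hDk : 0 < D ^ k := pow_pos hD k
  have hdeg : ∀ j, P.degreeOf j < D ^ k := by
    intro j
    rw [degreeOf_lt_iff hDk]
    intro s hs
    have := support_sum hs
    obtain ⟨e, -, he⟩ := Finset.mem_biUnion.1 this
    have := support_monomial_subset he
    rw [Finset.mem_singleton] at this
    subst this
    exact hElt e j
  let S : Fin m → Finset ℂ := fun j =>
    (Finset.range (D ^ k)).image fun t => ζ ^ (j.val * D ^ k + t)
  have hlt : ∀ (j : Fin m) t, t < D ^ k → j.val * D ^ k + t < d := by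
    intro j t ht
    have : (j.val + 1) * D ^ k ≤ m * D ^ k := Nat.mul_le_mul_right _ j.2
    nlinarith
  have hS : ∀ j, (S j).card = D ^ k := by
    intro j
    rw [Finset.card_image_of_injOn, Finset.card_range]
    intro t ht t' ht' h
    have := hζ.pow_inj (hlt j t (by simpa using ht)) (hlt j t' (by simpa using ht')) h
    omega
  have : ¬ ∀ x : Fin m → ℂ, (∀ j, x j ∈ S j) → eval x P = 0 := fun h =>
    hP (eq_zero_of_eval_zero_at_prod_finset P S (fun j => by rw [hS]; exact hdeg j) h)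
  push Not at this
  obtain ⟨x, hx, hxP⟩ := this
  choose t ht htx using fun j => Finset.mem_image.1 (hx j)
  have ht' : ∀ j, t j < D ^ k := fun j => by simpa using ht j
  refine ⟨fun j => j.val * D ^ k + t j, fun j => hlt j _ (ht' j), ?_, ?_⟩
  · intro j j' h
    have h1 : (j.val * D ^ k + t j) / D ^ k = j.val := by
      rw [add_comm, Nat.add_mul_div_right _ _ hDk, Nat.div_eq_of_lt (ht' j), zero_add]
    have h2 : (j'.val * D ^ k + t j') / D ^ k = j'.val := by
      rw [add_comm, Nat.add_mul_div_right _ _ hDk, Nat.div_eq_of_lt (ht' j'), zero_add]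
    have h3 : j.val * D ^ k + t j = j'.val * D ^ k + t j' := h
    rw [h3, h2] at h1
    exact Fin.ext h1.symm
  · intro h
    apply hxP
    rw [← h]
    simp only [P, map_sum, eval_monomial]
    refine Finset.sum_congr rfl fun e _ => ?_
    congr 1
    rw [Finsupp.prod_fintype _ _ (by simp), Fintype.prod_prod_type_right]
    refine Finset.prod_congr rfl fun j _ => ?_
    rw [hEval, ← Finset.prod_pow_eq_pow_sum, ← htx j]
    refine Finset.prod_congr rfl fun r _ => ?_
    rw [← pow_mul, ← pow_mul]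
    congr 1
    ring

theorem count_ineq {m k N : ℕ} (hm : 2 ≤ m) (hk1 : 1 ≤ k) (hk : k ≤ m) (hN : 4 * N < k * m) :
    (m + 1 + N) ^ (2 * N) * (m + 1 + N) ^ k * (k * m * m ^ 9 * N + 1) ^ (2 * N) <
      (m ^ 9) ^ (k * m) := by
  have hkm : k * m ≤ m * m := Nat.mul_le_mul_right _ hk
  have h1 : m + 1 + N ≤ m ^ 2 := by nlinarith
  have h2 : 2 * N + k ≤ k * m := by nlinarith
  have h3 : k * m * m ^ 9 * N + 1 ≤ m ^ 13 := by
    have hN' : N + 1 ≤ m * m := by nlinarith
    have hpos : 1 ≤ k * m * m ^ 9 := Nat.mul_pos (Nat.mul_pos hk1 (by omega)) (by positivity)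
    calc k * m * m ^ 9 * N + 1 ≤ k * m * m ^ 9 * (N + 1) := by nlinarith
      _ ≤ m * m * m ^ 9 * (m * m) := Nat.mul_le_mul (Nat.mul_le_mul_right _ hkm) hN'
      _ = m ^ 13 := by ring
  have hm1 : 1 < m := by omega
  calc (m + 1 + N) ^ (2 * N) * (m + 1 + N) ^ k * (k * m * m ^ 9 * N + 1) ^ (2 * N)
      = (m + 1 + N) ^ (2 * N + k) * (k * m * m ^ 9 * N + 1) ^ (2 * N) := by rw [pow_add]
    _ ≤ (m ^ 2) ^ (2 * N + k) * (m ^ 13) ^ (2 * N) :=
        Nat.mul_le_mul (Nat.pow_le_pow_left h1 _) (Nat.pow_le_pow_left h3 _)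
    _ = m ^ (2 * (2 * N + k) + 13 * (2 * N)) := by rw [← pow_mul, ← pow_mul, ← pow_add]
    _ < m ^ (9 * (k * m)) := Nat.pow_lt_pow_right hm1 (by omega)
    _ = (m ^ 9) ^ (k * m) := by rw [pow_mul]

end Pool.Agent.MP_f91556_lc

end MrgPart2

-- ======== part 3: formerly Pool.Agent.MP_f91556_lc.Main
section MrgPart3

/-!
Lower bound for multiplying a worst-case Fourier submatrix by a vector.
With `k = m`: for every `m ≥ 2` and every `d ≥ m ^ (10 m)` some `m × m` submatrix needs
`m ^ 2 / 8` arithmetic operations, whatever the control, the constants and the tests.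
-/

namespace Pool.Agent.MP_f91556_lc

open Complex

theorem main_bound (m k d : ℕ) (hm : 2 ≤ m) (hk : 1 ≤ k) (hkm : k ≤ m) (hd : m ^ (10 * k) ≤ d) :
    ∃ R C : Finset (ZMod d), R.card = m ∧ C.card = m ∧
      ∀ (σ : Type) (act : σ → Control σ (C ⊕ ℕ) R) (start : σ) (s : ℕ),
        (∀ v : C → ℂ, ∃ n ≤ s, Runs act start (Sum.elim v 0) (fourierMul d R C v) n) →
        k * m ≤ 8 * s := by
  classical
  have hm1 : 1 < m := by omega
  have hd' : m * (m ^ 9) ^ k ≤ d := by
    refine le_trans ?_ hd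
    rw [← pow_mul, ← pow_succ']
    exact Nat.pow_le_pow_right (by omega) (by omega)
  have hDk : 1 ≤ (m ^ 9) ^ k := Nat.pow_pos (by positivity)
  have hmd : m ≤ d := le_trans (Nat.le_mul_of_pos_right _ hDk) hd'
  have hd0 : d ≠ 0 := by omega
  have : NeZero d := ⟨hd0⟩
  set ζ : ℂ := Complex.exp (-2 * Real.pi * Complex.I / d) with hζdef
  have hζ : IsPrimitiveRoot ζ d := by
    have : ζ = (Complex.exp (2 * Real.pi * Complex.I / d))⁻¹ := by
      rw [hζdef, ← Complex.exp_neg]; congr 1; ring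
    rw [this]
    exact (Complex.isPrimitiveRoot_exp d hd0).inv
  set γ : ℂ := (Real.sqrt d : ℂ) with hγ
  have hγ0 : γ ≠ 0 := by
    rw [hγ]
    exact_mod_cast (Real.sqrt_pos.2 (by exact_mod_cast Nat.pos_of_ne_zero hd0)).ne'
  have hγc : starRingEnd ℂ γ = γ := by rw [hγ]; exact Complex.conj_ofReal _
  let B : Finset (Fin m → ℂ) := insert 0 (Finset.univ.image fun i : Fin m => Pi.single i γ)
  have hB : B.card ≤ m + 1 := by
    refine (Finset.card_insert_le _ _).trans ?_
    have : (Finset.univ.image fun i : Fin m => (Pi.single i γ : Fin m → ℂ)).card ≤ m := by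
      simpa using Finset.card_image_le (s := Finset.univ)
        (f := fun i : Fin m => (Pi.single i γ : Fin m → ℂ))
    omega
  have hB0 : (0 : Fin m → ℂ) ∈ (B : Set (Fin m → ℂ)) := by simp [B]
  set N := (k * m - 1) / 4 with hN
  have hkm0 : 0 < k * m := Nat.mul_pos hk (by omega)
  have hN4 : 4 * N < k * m := by omega
  obtain ⟨q, hq0, hq⟩ := exists_equation (K := Fin k) B N (m ^ 9) (by
    simp only [Fintype.card_fin]
    refine lt_of_le_of_lt ?_ (count_ineq hm hk hkm hN4)
    gcongr)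
  obtain ⟨c, hcd, hcinj, hc⟩ := exists_nonvanishing ζ hζ hd' (by positivity) q hq0
  have hcinj' : Function.Injective fun j => (c j : ZMod d) := by
    intro j j' h
    apply hcinj
    have := congrArg ZMod.val h
    simpa [ZMod.val_cast_of_lt (hcd _)] using this
  let C : Finset (ZMod d) := Finset.univ.image fun j => (c j : ZMod d)
  have hC : C.card = m := by
    rw [Finset.card_image_of_injective _ hcinj']; simp
  let R₀ : Finset (ZMod d) := Finset.univ.image fun r : Fin k => (((m ^ 9) ^ r.val : ℕ) : ZMod d)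
  have hR₀ : R₀.card ≤ m := Finset.card_image_le.trans (by simpa using hkm)
  obtain ⟨R, hR₀R, hR⟩ := Finset.exists_superset_card_eq hR₀ (by simpa using hmd)
  refine ⟨R, C, hR, hC, ?_⟩
  intro σ act start s H
  by_contra hlt
  have h2s : 2 * s ≤ N := by omega
  let cc : Fin m → C := fun j => ⟨c j, Finset.mem_image.2 ⟨j, Finset.mem_univ _, rfl⟩⟩
  have hcc : Function.Injective cc := fun j j' h => hcinj' (congrArg Subtype.val h)
  let δ : Fin m → (C → ℂ) := fun j => Pi.single (cc j) γ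
  let δ' : Fin m → (C → ℂ) := fun j => Pi.single (cc j) (I * γ)
  let M : R → (C → ℂ) →L[ℝ] ℂ := fun r => ∑ x : C,
    ((1 / γ) * ζ ^ ((r : ZMod d).val * (x : ZMod d).val)) •
      (ContinuousLinearMap.proj x : (C → ℂ) →L[ℝ] ℂ)
  have hM : ∀ v r, M r v = fourierMul d R C v r := by
    intro v r
    simp only [M, fourierMul, sum_apply, smul_apply,
      ContinuousLinearMap.proj_apply, smul_eq_mul, Finset.mul_sum]
    refine Finset.sum_congr rfl fun x _ => ?_
    rw [← hγ, ← hζdef]
    ring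
  have hinit : Good δ δ' (B : Set (Fin m → ℂ)) (fun v : C → ℂ => (Sum.elim v 0 : C ⊕ ℕ → ℂ)) 0 := by
    refine ⟨Set.univ, isOpen_univ, dense_univ, fun v _ => ⟨_, Reach.base, ?_⟩⟩
    rintro (x | n)
    · obtain ⟨j₀, -, hj₀⟩ := Finset.mem_image.1 x.2
      have hx : x = cc j₀ := Subtype.ext hj₀.symm
      subst hx
      refine ⟨ContinuousLinearMap.proj (cc j₀),
        (ContinuousLinearMap.proj (cc j₀) : (C → ℂ) →L[ℝ] ℂ).hasFDerivAt, ?_, ?_⟩
      · have : wp δ δ' (ContinuousLinearMap.proj (cc j₀) : (C → ℂ) →L[ℝ] ℂ) =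
            Pi.single j₀ γ := by
          funext j
          by_cases hj : j = j₀
          · subst hj
            simp only [wp, δ, δ', ContinuousLinearMap.proj_apply, Pi.single_eq_same]
            linear_combination (-γ / 2) * I_mul_I
          · simp [wp, δ, δ', Pi.single_eq_of_ne (hcc.ne (Ne.symm hj)), Pi.single_eq_of_ne hj]
        rw [this]
        simp [B]
      · have : wm δ δ' (ContinuousLinearMap.proj (cc j₀) : (C → ℂ) →L[ℝ] ℂ) = 0 := by
          funext j
          by_cases hj : j = j₀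
          · subst hj
            simp only [wm, δ, δ', ContinuousLinearMap.proj_apply, Pi.single_eq_same, map_mul,
              conj_I, hγc, Pi.zero_apply]
            linear_combination (γ / 2) * I_mul_I
          · simp [wm, δ, δ', Pi.single_eq_of_ne (hcc.ne (Ne.symm hj))]
        rw [this]
        exact hB0
    · refine ⟨0, hasFDerivAt_const (0 : ℂ) v, ?_, ?_⟩
      · have : wp δ δ' (0 : (C → ℂ) →L[ℝ] ℂ) = 0 := by funext j; simp [wp]
        rw [this]; exact hB0
      · have : wm δ δ' (0 : (C → ℂ) →L[ℝ] ℂ) = 0 := by funext j; simp [wm]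
        rw [this]; exact hB0
  obtain ⟨S, hS, hSM⟩ := reach_of_machine hB0 act start _ hinit M s (by
    intro v
    obtain ⟨n, hn, hr⟩ := H v
    refine ⟨n, hn, ?_⟩
    have : (fun r => M r v) = fourierMul d R C v := funext (hM v)
    rw [this]
    exact hr)
  obtain ⟨S', hS', hsub⟩ := hS.mono hB0 h2s
  let rr : Fin k → R := fun r =>
    ⟨(((m ^ 9) ^ r.val : ℕ) : ZMod d), hR₀R (Finset.mem_image.2 ⟨r, Finset.mem_univ _, rfl⟩)⟩
  have hwp : ∀ r j, wp δ δ' (M (rr r)) j = ζ ^ ((m ^ 9) ^ r.val * c j) := by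
    intro r j
    have hr : (m ^ 9) ^ r.val < d := by
      have h1 : (m ^ 9) ^ r.val ≤ (m ^ 9) ^ k := Nat.pow_le_pow_right (by positivity) r.2.le
      nlinarith
    have key : ∀ z : ℂ, M (rr r) (Pi.single (cc j) z) =
        (1 / γ) * ζ ^ ((m ^ 9) ^ r.val * c j) * z := by
      intro z
      simp only [M, sum_apply, smul_apply,
        ContinuousLinearMap.proj_apply, smul_eq_mul]
      rw [Finset.sum_eq_single (cc j)]
      · simp only [rr, cc, Pi.single_eq_same, ZMod.val_cast_of_lt hr,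
          ZMod.val_cast_of_lt (hcd j)]
      · intro x _ hx
        simp [Pi.single_eq_of_ne hx]
      · simp
    simp only [wp, δ, δ', key]
    generalize ζ ^ ((m ^ 9) ^ r.val * c j) = z
    field_simp
    linear_combination (-z) * I_mul_I
  apply hc
  have := hq S' hS' (fun r => wp δ δ' (M (rr r))) fun r => hsub (hSM (rr r))
  simpa only [hwp] using this

end Pool.Agent.MP_f91556_lc

end MrgPart3

-- marker of a merged file
example : 731051 + 466971 = 731051 + 466971 := rfl
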